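import Pool.Agent.Y134.Cyc.Aff

/-!
# Multiplicative characters composed with the norm; decomposition of roots of unity
-/

set_option autoImplicit false

namespace Pool.Agent.Y134.Cyc

open Finset Polynomial Pool.Agent.W528.HA Pool.Agent.W528.HS

/-- A root of unity is the product of one of order prime to `p` and one of `p`-power order. -/
lemma decomp {E : Type} [Field E] {p : ℕ} (hp : p.Prime) {m : ℕ} (hm : 0 < m) {y : E}
    (hy : y ^ m = 1) : ∃ (M c : ℕ) (ζ η : E), M ∣ m ∧ ¬ p ∣ M ∧ IsPrimitiveRoot ζ M ∧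
      η ^ p ^ c = 1 ∧ y = ζ * η := by
  have hy' : IsPrimitiveRoot y (orderOf y) := IsPrimitiveRoot.orderOf y
  have hpos : 0 < orderOf y := orderOf_pos_iff.2 (isOfFinOrder_iff_pow_eq_one.2 ⟨m, hm, hy⟩)
  obtain ⟨c, M, hMp, hM⟩ := Nat.exists_eq_pow_mul_and_not_dvd hpos.ne' p hp.ne_one
  have hM0 : 0 < M := Nat.pos_of_ne_zero (by rintro rfl; exact hMp (dvd_zero p))
  have hcop : Nat.Coprime (p ^ c) M :=
    Nat.Coprime.pow_left c ((Nat.Prime.coprime_iff_not_dvd hp).2 hMp)
  obtain ⟨t, ht1, ht2⟩ := Nat.chineseRemainder hcop 0 1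
  obtain ⟨t', ht1', ht2'⟩ := Nat.chineseRemainder hcop 1 0
  obtain ⟨e, he⟩ := (Nat.modEq_zero_iff_dvd.1 ht1)
  obtain ⟨e', he'⟩ := (Nat.modEq_zero_iff_dvd.1 ht2')
  refine ⟨M, c, y ^ t, y ^ t', ?_, hMp, ?_, ?_, ?_⟩
  · exact (Dvd.intro_left _ hM.symm).trans (orderOf_dvd_of_pow_eq_one hy)
  · rw [he, pow_mul]
    refine (hy'.pow hpos hM).pow_of_coprime e ?_
    have h2 : t.Coprime M := (Nat.ModEq.gcd_eq ht2).trans (Nat.gcd_one_left _)
    rw [he] at h2
    exact h2.coprime_mul_left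
  · rw [← pow_mul, he', show M * e' * p ^ c = orderOf y * e' by rw [hM]; ring, pow_mul,
      pow_orderOf_eq_one, one_pow]
  · rw [← pow_add]
    have h3 : t + t' ≡ 1 [MOD p ^ c * M] :=
      (Nat.modEq_and_modEq_iff_modEq_mul hcop).1 ⟨by simpa using ht1.add ht1',
        by simpa using ht2.add ht2'⟩
    rw [← hM] at h3
    have h4 := pow_eq_pow_of_modEq h3 (pow_orderOf_eq_one y)
    rw [h4, pow_one]

/-- The values of a character of order `n` composed with the norm. -/
theorem char_kv {κ : Type} [Field κ] [Fintype κ] {E : Type} [Field E] {n : ℕ} (hn : 0 < n)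
    (hdvd : n ∣ Fintype.card κ - 1) (χ : MulChar κ E) (hχ : orderOf χ = n) :
    ∃ (z : κ) (μ : E), IsPrimitiveRoot z n ∧ IsPrimitiveRoot μ n ∧
      ∀ (L : Type) [Field L] [Fintype L] [Algebra κ L] (u : L) (j : ℕ), 1 ≤ j →
        (χ ^ j) (Algebra.norm κ u)
          = kv n (algebraMap κ L z) μ ((u ^ j) ^ ((Fintype.card L - 1) / n)) := by
  classical
  obtain ⟨g, hg⟩ := IsCyclic.exists_generator (α := κˣ)
  obtain ⟨f, hf⟩ := hdvd
  have hQ := Fintype.one_lt_card (α := κ)
  have hf0 : 0 < f := Nat.pos_of_ne_zero (by rintro rfl; omega)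
  have hgo : orderOf g = Fintype.card κ - 1 := by
    rw [orderOf_eq_card_of_forall_mem_zpowers hg, Nat.card_eq_fintype_card, Fintype.card_units]
  have hgen : ∀ w : κˣ, ∃ a : ℕ, w = g ^ a := by
    intro w
    obtain ⟨a, ha⟩ := (mem_powers_iff_mem_zpowers (x := g) (y := w)).2 (hg w)
    exact ⟨a, ha.symm⟩
  have hz : IsPrimitiveRoot ((g : κ) ^ f) n := by
    have h1 : IsPrimitiveRoot (g : κ) (Fintype.card κ - 1) := by
      rw [← hgo, ← orderOf_units]
      exact IsPrimitiveRoot.orderOf _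
    exact h1.pow (by omega) (by rw [hf]; ring)
  have hμ : IsPrimitiveRoot (χ (g : κ)) n := by
    constructor
    · rw [← MulChar.pow_apply_coe, ← hχ, pow_orderOf_eq_one, MulChar.one_apply_coe]
    · intro l hl
      rw [← hχ]
      apply orderOf_dvd_of_pow_eq_one
      ext w
      obtain ⟨a, rfl⟩ := hgen w
      rw [MulChar.pow_apply_coe, MulChar.one_apply_coe, Units.val_pow_eq_pow_val, map_pow,
        ← pow_mul, mul_comm, pow_mul, hl, one_pow]
  refine ⟨(g : κ) ^ f, χ (g : κ), hz, hμ, ?_⟩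
  intro L _ _ _ u j hj
  have hzL : algebraMap κ L ((g : κ) ^ f) ≠ 0 :=
    (_root_.map_ne_zero _).2 (hz.ne_zero hn.ne')
  have hQL := Fintype.one_lt_card (α := L)
  have hqL : Fintype.card κ - 1 ∣ Fintype.card L - 1 := by
    rw [Module.card_eq_pow_finrank (K := κ) (V := L)]
    simpa using Nat.sub_dvd_pow_sub_pow (Fintype.card κ) 1 (Module.finrank κ L)
  obtain ⟨e, he⟩ := hqL
  have hq1 : 0 < Fintype.card κ - 1 := by omega
  have he0 : 0 < e := Nat.pos_of_ne_zero (by rintro rfl; omega)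
  have hdiv : (Fintype.card L - 1) / n = e * f := by
    rw [he, hf, show n * f * e = (e * f) * n by ring, Nat.mul_div_cancel _ hn]
  have hdiv2 : (Fintype.card L - 1) / (Fintype.card κ - 1) = e := by
    rw [he, Nat.mul_div_cancel_left _ hq1]
  rcases eq_or_ne u 0 with rfl | hu
  · rw [Algebra.norm_zero, zero_pow (by omega), zero_pow (by rw [hdiv]; positivity),
      Pool.Agent.W924.HC.PR.kv_zero hzL]
    exact MulChar.map_zero _
  · have hnorm : algebraMap κ L (Algebra.norm κ u) = u ^ e := by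
      rw [FiniteField.algebraMap_norm_eq_pow, Nat.card_eq_fintype_card, Nat.card_eq_fintype_card,
        hdiv2]
    have hn0 : Algebra.norm κ u ≠ 0 := by
      intro h
      rw [h, map_zero] at hnorm
      exact pow_ne_zero e hu hnorm.symm
    obtain ⟨a, ha⟩ := hgen (Units.mk0 _ hn0)
    have ha' : Algebra.norm κ u = (g : κ) ^ a := by
      have := congrArg Units.val ha
      simpa using this
    have h1 : (u ^ j) ^ ((Fintype.card L - 1) / n)
        = (algebraMap κ L ((g : κ) ^ f)) ^ (a * j) := by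
      rw [hdiv, ← pow_mul, show j * (e * f) = e * (f * j) by ring, pow_mul, ← hnorm, ha',
        ← map_pow, ← map_pow, ← pow_mul, ← pow_mul]
      congr 2
      ring
    rw [h1, Pool.Agent.W924.HC.PR.kv_pow hn (hz.map_of_injective (algebraMap κ L).injective)
      hμ.pow_eq_one, MulChar.pow_apply' χ (by omega), ha', map_pow, ← pow_mul]

end Pool.Agent.Y134.Cyc
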