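import Pool.Agent.Y134.Cyc.Core

/-!
# Cyclotomic factors modulo `p` from eigenvalues `Q ζ`
-/

set_option autoImplicit false

namespace Pool.Agent.Y134.Cyc

open Finset Polynomial Pool.Agent.W528.HA Pool.Agent.W528.HS

/-- A lower bound for the number of elements with given reduction. -/
lemma card_filter_ge {E : Type} [Field E] [DecidableEq E] {O : Subring E} {k : Type} [Field k]
    [DecidableEq k] (θ : O →+* k) (A : Multiset E) (A' : Multiset O)
    (hA' : A'.map Subtype.val = A) (S : Finset E) (hS : ∀ y ∈ S, y ∈ O) (v : k)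
    (hv : ∀ (y : E) (hy : y ∈ S), θ ⟨y, hS y hy⟩ = v) :
    ∑ y ∈ S, A.count y ≤ (A'.filter fun x => θ x = v).card := by
  classical
  set T : Finset O := S.attach.image (fun y => (⟨y.1, hS y.1 y.2⟩ : O)) with hT
  have h1 : ∑ y ∈ S, A.count y = ∑ x ∈ T, A'.count x := by
    rw [hT, sum_image, ← sum_attach S]
    · refine sum_congr rfl fun y _ => ?_
      rw [← hA', ← Multiset.count_map_eq_count' Subtype.val A' Subtype.val_injective]
    · intro y _ y' _ h
      exact Subtype.ext (congrArg (fun z : O => (z : E)) h)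
  have h2 : ∀ x ∈ T, θ x = v := by
    intro x hx
    rw [hT, mem_image] at hx
    obtain ⟨y, _, rfl⟩ := hx
    exact hv y.1 y.2
  have h3 : ∑ x ∈ T, A'.count x = (A'.filter fun x => x ∈ T).card := by
    rw [← Multiset.sum_count_eq_card (s := T) (m := A'.filter fun x => x ∈ T)]
    · refine sum_congr rfl fun x hx => ?_
      rw [Multiset.count_filter_of_pos hx]
    · intro x hx
      exact (Multiset.mem_filter.mp hx).2
  rw [h1, h3]
  apply Multiset.card_le_card
  apply Multiset.monotone_filter_right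
  intro x hx
  exact h2 x hx

lemma pow_card_dvd {k : Type} [Field k] [DecidableEq k] {O : Type} (A' : Multiset O) (t : O → k)
    {v : k} (hv : v ≠ 0) {m : ℕ} (hm : m ≤ (A'.filter fun x => t x = v).card) :
    (X - C v⁻¹) ^ m ∣ (A'.map fun x => 1 - C (t x) * X).prod := by
  rw [← Multiset.filter_add_not (fun x => t x = v) A', Multiset.map_add, Multiset.prod_add]
  apply Dvd.dvd.mul_right
  have h4 : ((Multiset.filter (fun x => t x = v) A').map fun x => 1 - C (t x) * X)
      = Multiset.replicate (Multiset.filter (fun x => t x = v) A').card (1 - C v * X : k[X]) := by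
    rw [← Multiset.map_const']
    apply Multiset.map_congr rfl
    intro x hx
    rw [(Multiset.mem_filter.mp hx).2]
  rw [h4, Multiset.prod_replicate]
  refine (pow_dvd_pow _ hm).trans (pow_dvd_pow_of_dvd ?_ _)
  refine ⟨-C v, ?_⟩
  have h5 : C v⁻¹ * C v = (1 : k[X]) := by rw [← C_mul, inv_mul_cancel₀ hv, C_1]
  linear_combination -h5

theorem cyc_dvd {p : ℕ} (hp : p.Prime) {E : Type} [Field E] [CharZero E] [DecidableEq E]
    {k : Type} [Field k] [CharP k p] (θ : (integralClosure ℤ E).toSubring →+* k)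
    (A : Multiset E) (A' : Multiset (integralClosure ℤ E).toSubring)
    (hA' : A'.map Subtype.val = A) (Q : ℕ) (hQ : (Q : k) = 1) {M : ℕ} (hM : 0 < M)
    (hMp : ¬ p ∣ M) {ζ : E} (hζ : IsPrimitiveRoot ζ M) (b : ℕ)
    (hconj : ∀ η : E, η ^ p ^ b = 1 → ∀ u : ℕ, u.Coprime M →
      A.count ((Q : E) * (ζ * η)) ≤ A.count ((Q : E) * (ζ ^ u * η))) :
    cyclotomic M k ^ (∑ η ∈ nthRootsFinset (p ^ b) (1 : E), A.count ((Q : E) * (ζ * η)))
      ∣ (A'.map fun x => 1 - C (θ x) * X).prod := by
  classical
  have hfact : Fact p.Prime := ⟨hp⟩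
  have hpb : 0 < p ^ b := pow_pos hp.pos b
  have hQ0 : (Q : E) ≠ 0 := by
    intro h
    have : Q = 0 := by exact_mod_cast h
    rw [this, Nat.cast_zero] at hQ
    exact zero_ne_one hQ
  have hM' : NeZero M := ⟨hM.ne'⟩
  have hMk : NeZero (M : k) := ⟨by rwa [Ne, CharP.cast_eq_zero_iff k p M]⟩
  -- the reduction of `ζ`
  have hζi : IsIntegral ℤ ζ := hζ.isIntegral hM
  set ζ' : (integralClosure ℤ E).toSubring := ⟨ζ, hζi⟩ with hζ'
  have hζk : IsPrimitiveRoot (θ ζ') M := by
    rw [← isRoot_cyclotomic_iff]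
    have h1 : (cyclotomic M (integralClosure ℤ E).toSubring).IsRoot ζ' := by
      have h2 : (cyclotomic M E).IsRoot ζ := hζ.isRoot_cyclotomic hM
      rw [IsRoot.def] at h2 ⊢
      apply Subtype.ext
      have h3 : ((eval ζ' (cyclotomic M (integralClosure ℤ E).toSubring) :
          (integralClosure ℤ E).toSubring) : E) = eval ζ (cyclotomic M E) := by
        rw [← map_cyclotomic M (integralClosure ℤ E).toSubring.subtype, eval_map]
        exact (eval₂_at_apply (integralClosure ℤ E).toSubring.subtype ζ').symm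
      rw [h3, h2]
      rfl
    rw [← map_cyclotomic M θ]
    exact h1.map
  rw [cyclotomic_eq_prod_X_sub_primitiveRoots hζk, ← Finset.prod_pow]
  apply Finset.prod_dvd_of_coprime
  · intro w _ w' _ hne
    exact (isCoprime_X_sub_C_of_isUnit_sub (sub_ne_zero.2 hne).isUnit).pow
  · intro w hw
    rw [mem_primitiveRoots hM] at hw
    have hw0 : w ≠ 0 := hw.ne_zero hM.ne'
    obtain ⟨u, -, hu, huw⟩ := (hζk.isPrimitiveRoot_iff).1 hw.inv
    have h1 : (X - C w : k[X]) = X - C (w⁻¹)⁻¹ := by rw [inv_inv]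
    rw [h1]
    apply pow_card_dvd A' (fun x => θ x) (inv_ne_zero hw0)
    have hS : ∀ η ∈ nthRootsFinset (p ^ b) (1 : E), IsIntegral ℤ ((Q : E) * (ζ ^ u * η)) := by
      intro η hη
      rw [mem_nthRootsFinset hpb] at hη
      have h2 : IsIntegral ℤ η := IsIntegral.of_pow hpb (by rw [hη]; exact isIntegral_one)
      have h3 : IsIntegral ℤ (Q : E) := isIntegral_natCast Q
      exact h3.mul ((hζi.pow u).mul h2)
    have hinj : ∀ η ∈ nthRootsFinset (p ^ b) (1 : E), ∀ η' ∈ nthRootsFinset (p ^ b) (1 : E),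
        (Q : E) * (ζ ^ u * η) = (Q : E) * (ζ ^ u * η') → η = η' := by
      intro η _ η' _ h
      exact mul_left_cancel₀ (pow_ne_zero u (hζ.ne_zero hM.ne')) (mul_left_cancel₀ hQ0 h)
    have h4 := card_filter_ge θ A A' hA'
      ((nthRootsFinset (p ^ b) (1 : E)).image fun η => (Q : E) * (ζ ^ u * η)) (by
        intro y hy
        rw [mem_image] at hy
        obtain ⟨η, hη, rfl⟩ := hy
        exact hS η hη) (w⁻¹) (by
        intro y hy
        have hy' := hy
        rw [mem_image] at hy'
        obtain ⟨η, hη, rfl⟩ := hy'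
        have h2 : IsIntegral ℤ η := IsIntegral.of_pow hpb (by
          rw [mem_nthRootsFinset hpb] at hη
          rw [hη]; exact isIntegral_one)
        rw [mem_nthRootsFinset hpb] at hη
        set η' : (integralClosure ℤ E).toSubring := ⟨η, h2⟩ with hη'
        have h5 : θ η' = 1 := by
          have h6 : η' ^ p ^ b = 1 := Subtype.ext (by push_cast; exact hη)
          have h7 : (θ η' - 1) ^ p ^ b = 0 := by
            rw [sub_pow_char_pow, ← map_pow, h6, map_one, one_pow, sub_self]
          exact sub_eq_zero.mp ((pow_eq_zero_iff hpb.ne').mp h7)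
        have h8 : (⟨(Q : E) * (ζ ^ u * η), hS η (by rwa [mem_nthRootsFinset hpb])⟩ :
            (integralClosure ℤ E).toSubring) = (Q : (integralClosure ℤ E).toSubring)
              * (ζ' ^ u * η') := Subtype.ext (by push_cast; rfl)
        rw [h8, map_mul, map_mul, map_pow, map_natCast, hQ, h5, huw]
        ring)
    rw [sum_image hinj] at h4
    refine le_trans ?_ h4
    refine sum_le_sum fun η hη => ?_
    rw [mem_nthRootsFinset hpb] at hη
    exact hconj η hη u hu

end Pool.Agent.Y134.Cyc
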