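import Pool.Agent.Y134.Cyc.Main
import Pool.Agent.W924.HC.PR

/-!
# Affine space and multiplicative characters
-/

set_option autoImplicit false

namespace Pool.Agent.Y134.Cyc

open Finset Polynomial Pool.Agent.W528.HA Pool.Agent.W528.HS

/-- The form `F` times the last coordinate. -/
noncomputable def lastMul {R : Type} [CommRing R] {m : ℕ} (F : MvPolynomial (Fin m) R) :
    MvPolynomial (Fin (m + 1)) R :=
  MvPolynomial.rename Fin.castSucc F * MvPolynomial.X (Fin.last m)

lemma eval_lastMul {R : Type} [CommRing R] {m : ℕ} (F : MvPolynomial (Fin m) R) (t : R)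
    (w : Fin m → R) :
    MvPolynomial.eval (Fin.snoc w t : Fin (m + 1) → R) (lastMul F) = MvPolynomial.eval w F * t := by
  unfold lastMul
  rw [map_mul, MvPolynomial.eval_rename, MvPolynomial.eval_X]
  simp [Function.comp_def]

lemma map_lastMul {R S : Type} [CommRing R] [CommRing S] (f : R →+* S) {m : ℕ}
    (F : MvPolynomial (Fin m) R) :
    MvPolynomial.map f (lastMul F) = lastMul (MvPolynomial.map f F) := by
  unfold lastMul
  rw [map_mul, MvPolynomial.map_rename, MvPolynomial.map_X]

lemma isNorm_snoc {L : Type} [Field L] {m : ℕ} (w : Fin m → L) {t : L} (ht : t ≠ 0) :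
    IsNorm (Fin.snoc w t : Fin (m + 1) → L) ↔ t = 1 := by
  constructor
  · rintro ⟨i, hi, hj⟩
    rcases Fin.eq_castSucc_or_eq_last i with ⟨j, rfl⟩ | rfl
    · exact absurd (by simpa using hj (Fin.last m) (Fin.castSucc_lt_last j)) ht
    · simpa using hi
  · rintro rfl
    refine ⟨Fin.last m, by simp, ?_⟩
    intro j hj
    exact absurd (Fin.le_last j) (not_le.2 hj)

lemma projSum_lastMul {L : Type} [Field L] [Fintype L] {R : Type} [CommRing R] {N : ℕ}
    (hN : 0 < N) (hdvd : N ∣ Fintype.card L - 1) {z : L} (hz : z ≠ 0) (μ : R) {m : ℕ}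
    (F : MvPolynomial (Fin m) L) :
    projSum L R N (lastMul F) z μ
      = ∑ w : Fin m → L, kv N z μ ((MvPolynomial.eval w F) ^ ((Fintype.card L - 1) / N)) := by
  classical
  have hQ := Fintype.one_lt_card (α := L)
  have he : (Fintype.card L - 1) / N ≠ 0 := by
    have := Nat.div_pos (Nat.le_of_dvd (by omega) hdvd) hN
    omega
  unfold projSum
  rw [← (Fin.snocEquiv (fun _ : Fin (m + 1) => L)).sum_comp, Fintype.sum_prod_type]
  rw [Finset.sum_eq_single (1 : L)]
  · refine sum_congr rfl fun w _ => ?_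
    change (if IsNorm (Fin.snoc w (1 : L) : Fin (m + 1) → L) then
      kv N z μ ((MvPolynomial.eval (Fin.snoc w (1 : L) : Fin (m + 1) → L) (lastMul F)) ^
        ((Fintype.card L - 1) / N)) else 0) = _
    rw [if_pos ((isNorm_snoc w one_ne_zero).2 rfl), eval_lastMul, mul_one]
  · intro t _ ht
    apply sum_eq_zero
    intro w _
    change (if IsNorm (Fin.snoc w t : Fin (m + 1) → L) then
      kv N z μ ((MvPolynomial.eval (Fin.snoc w t : Fin (m + 1) → L) (lastMul F)) ^
        ((Fintype.card L - 1) / N)) else 0) = _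
    by_cases h0 : t = 0
    · rw [eval_lastMul, h0, mul_zero, zero_pow he, Pool.Agent.W924.HC.PR.kv_zero hz]
      split_ifs <;> rfl
    · rw [if_neg]
      rw [isNorm_snoc w h0]
      exact ht
  · intro h
    exact absurd (mem_univ _) h

lemma projOpen_lastMul {L : Type} [Field L] {m : ℕ} (F : MvPolynomial (Fin m) L) :
    projOpen L (lastMul F) = Set.ncard {w : Fin m → L | MvPolynomial.eval w F ≠ 0} := by
  unfold projOpen
  rw [← Set.ncard_image_of_injective {w : Fin m → L | MvPolynomial.eval w F ≠ 0}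
    (f := fun w => (Fin.snoc w (1 : L) : Fin (m + 1) → L)) (by
      intro w w' h
      have h2 := congrArg (Fin.init : (Fin (m + 1) → L) → (Fin m → L)) h
      simpa using h2)]
  congr 1
  ext v
  constructor
  · rintro ⟨h1, h2⟩
    have hv : v = Fin.snoc (Fin.init v) (v (Fin.last m)) := (Fin.snoc_init_self v).symm
    rw [hv] at h1 h2
    rw [eval_lastMul] at h2
    have h3 : v (Fin.last m) ≠ 0 := right_ne_zero_of_mul h2
    have h4 := (isNorm_snoc _ h3).1 h1
    refine ⟨Fin.init v, left_ne_zero_of_mul h2, ?_⟩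
    change (Fin.snoc (Fin.init v) (1 : L) : Fin (m + 1) → L) = v
    conv_rhs => rw [hv]
    rw [h4]
  · rintro ⟨w, hw, rfl⟩
    refine ⟨(isNorm_snoc w one_ne_zero).2 rfl, ?_⟩
    change MvPolynomial.eval (Fin.snoc w (1 : L) : Fin (m + 1) → L) (lastMul F) ≠ 0
    rw [eval_lastMul, mul_one]
    exact hw

lemma open_add_zero {L : Type} [Field L] [Fintype L] {m : ℕ} (F : MvPolynomial (Fin m) L) :
    Set.ncard {w : Fin m → L | MvPolynomial.eval w F ≠ 0}
      + Set.ncard {w : Fin m → L | MvPolynomial.eval w F = 0} = Fintype.card L ^ m := by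
  classical
  have h1 := Set.ncard_add_ncard_compl {w : Fin m → L | MvPolynomial.eval w F ≠ 0}
  rw [show ({w : Fin m → L | MvPolynomial.eval w F ≠ 0}ᶜ) =
    {w : Fin m → L | MvPolynomial.eval w F = 0} by ext w; simp] at h1
  rw [h1, Nat.card_eq_fintype_card, Fintype.card_fun, Fintype.card_fin]

end Pool.Agent.Y134.Cyc
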