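import Pool.Agent.W528.HS.Fin
import Pool.Agent.W111.HS.EC

/-!
# Roots of unity among the eigenvalues and cyclotomic factors modulo `p`

Auxiliary results. The polynomial whose roots are the Frobenius eigenvalues on the part of a
character of order `p ^ s` has coefficients in `ℤ[μ]`, `μ` a root of unity of order `p ^ s`; so with
an eigenvalue `Q ζ η`, `ζ` of order `M` prime to `p` and `η` of `p`-power order, all `Q ζ ^ u η` with
`u` prime to `M` are eigenvalues with the same multiplicity. Modulo `p` they give the cyclotomic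
polynomial of index `M`.
-/

set_option autoImplicit false

namespace Pool.Agent.Y134.Cyc

open Finset Polynomial Pool.Agent.W528.HA Pool.Agent.W528.HS Pool.Agent.W111.HS.EC

/-- evaluation at `μ`, as a ring homomorphism -/
noncomputable def ev {E : Type} [Field E] (μ : E) : ℤ[X] →+* E := (aeval μ : ℤ[X] →ₐ[ℤ] E).toRingHom

lemma ev_X {E : Type} [Field E] (μ : E) : ev μ X = μ := by simp [ev]

lemma ev_apply {E : Type} [Field E] (μ : E) (g : ℤ[X]) : ev μ g = aeval μ g := rfl

lemma pm_map {E : Type} [Field E] (N : ℕ) (μ : E) (a : ℕ → ℕ → ℕ) (M : ℕ) :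
    pm N μ a M = PowerSeries.map (ev μ) (pm N (X : ℤ[X]) a M) := by
  unfold pm
  rw [map_prod]
  refine Finset.prod_congr rfl fun d _ => ?_
  rw [map_prod]
  refine Finset.prod_congr rfl fun i _ => ?_
  simp only [map_pow, map_sub, map_one, map_mul, PowerSeries.map_C, PowerSeries.map_X, ev_X]

lemma gs_coe {R : Type} [CommRing R] (A : Multiset R) :
    gs A = (((A.map fun x => 1 - C x * X).prod : R[X]) : PowerSeries R) := by
  have h3 := map_multiset_prod (Polynomial.coeToPowerSeries.ringHom (R := R))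
    (A.map fun x => 1 - Polynomial.C x * Polynomial.X)
  rw [Multiset.map_map] at h3
  rw [gs]
  refine Eq.trans ?_ h3.symm
  congr 1
  refine Multiset.map_congr rfl fun x _ => ?_
  simp

lemma natDegree_prod_le {R : Type} [CommRing R] (A : Multiset R) :
    ((A.map fun x => 1 - C x * X).prod : R[X]).natDegree ≤ A.card := by
  induction A using Multiset.induction_on with
  | empty => simp
  | cons x A ih =>
    rw [Multiset.map_cons, Multiset.prod_cons, Multiset.card_cons]
    refine (natDegree_mul_le).trans ?_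
    have h1 : (1 - C x * X : R[X]).natDegree ≤ 1 := by
      refine (natDegree_sub_le _ _).trans ?_
      rw [natDegree_one, max_le_iff]
      exact ⟨by omega, (natDegree_C_mul_le _ _).trans natDegree_X_le⟩
    omega

lemma reflect_prod {R : Type} [CommRing R] (A : Multiset R) :
    reflect A.card ((A.map fun x => 1 - C x * X).prod : R[X]) = (A.map fun x => X - C x).prod := by
  induction A using Multiset.induction_on with
  | empty => simp
  | cons x A ih =>
    rw [Multiset.map_cons, Multiset.prod_cons, Multiset.card_cons, Multiset.map_cons,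
      Multiset.prod_cons, add_comm A.card 1]
    have h1 : (1 - C x * X : R[X]).natDegree ≤ 1 := by
      refine (natDegree_sub_le _ _).trans ?_
      rw [natDegree_one, max_le_iff]
      exact ⟨by omega, (natDegree_C_mul_le _ _).trans natDegree_X_le⟩
    rw [reflect_mul _ _ h1 (natDegree_prod_le A), ih]
    congr 1
    rw [sub_eq_add_neg, reflect_add, reflect_neg, reflect_C_mul]
    have h2 : reflect 1 (1 : R[X]) = X := by
      rw [← C_1, reflect_C]; simp
    have h3 : reflect 1 (X : R[X]) = 1 := by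
      have := reflect_monomial (R := R) 1 1
      rw [pow_one] at this
      rw [this, revAt_le (le_refl 1)]
      simp
    rw [h2, h3]
    ring

/-- The polynomial with the roots `A`, as the image of a polynomial over `ℤ[T]`. -/
theorem exists_lift {E : Type} [Field E] [CharZero E] (N : ℕ) (μ : E) (a : ℕ → ℕ → ℕ)
    (A : Multiset E) (h : ∀ n, 1 ≤ n → orbSum N μ a n = (A.map fun x => x ^ n).sum) :
    ∃ G : ℤ[X][X], G.map (ev μ) = (A.map fun x => X - C x).prod := by
  have hR : ∀ (n : ℕ) (x : E), n ≠ 0 → (n : E) * x = 0 → x = 0 := by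
    intro n x hn h
    rcases mul_eq_zero.1 h with h2 | h2
    · exact (hn (Nat.cast_eq_zero.1 h2)).elim
    · exact h2
  have hc : ∀ n, ∃ g : ℤ[X], ev μ g = ((A.map fun x => 1 - C x * X).prod : E[X]).coeff n := by
    intro n
    have h1 := main_congr hR N μ a A 0 (by
      intro m hm
      rw [h m hm]
      simp) n
    have h2 := (PowerSeries.X_pow_dvd_iff.1 h1) n (Nat.lt_succ_self n)
    have h3 : gs (0 : Multiset E) = 1 := by simp [gs]
    rw [h3, mul_one, map_sub, sub_eq_zero, gs_coe, Polynomial.coeff_coe, pm_map,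
      PowerSeries.coeff_map] at h2
    exact ⟨_, h2.symm⟩
  have h1 : ((A.map fun x => X - C x).prod : E[X]) ∈ Polynomial.lifts (ev μ) := by
    rw [Polynomial.lifts_iff_coeff_lifts]
    intro n
    rw [← reflect_prod, coeff_reflect]
    obtain ⟨g, hg⟩ := hc (revAt A.card n)
    exact ⟨g, hg⟩
  rw [Polynomial.mem_lifts] at h1
  exact h1

lemma eval_conj {E : Type} [Field E] (i j Q : ℕ) (G : ℤ[X][X]) (ρ : E) :
    (G.map (ev (ρ ^ i))).eval ((Q : E) * ρ ^ j)
      = aeval ρ ((G.map (aeval (X ^ i) : ℤ[X] →ₐ[ℤ] ℤ[X]).toRingHom).eval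
          ((Q : ℤ[X]) * X ^ j)) := by
  rw [← ev_apply ρ]
  rw [eval_map, eval_map, hom_eval₂]
  congr 1
  · apply RingHom.ext
    intro g
    rw [RingHom.comp_apply]
    change aeval (ρ ^ i) g = aeval ρ (aeval (X ^ i) g)
    rw [← aeval_algHom_apply]
    simp
  · rw [map_mul, map_pow, ev_X, map_natCast]

theorem conj_root {E : Type} [Field E] [CharZero E] {n : ℕ} (hn : 0 < n) {ρ : E}
    (hρ : IsPrimitiveRoot ρ n) (i j Q t : ℕ) (ht : t.Coprime n) (G : ℤ[X][X])
    (h : (G.map (ev (ρ ^ i))).eval ((Q : E) * ρ ^ j) = 0) :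
    (G.map (ev ((ρ ^ t) ^ i))).eval ((Q : E) * (ρ ^ t) ^ j) = 0 := by
  rw [eval_conj] at h ⊢
  have h1 : minpoly ℤ ρ ∣ _ := minpoly.isIntegrallyClosed_dvd (hρ.isIntegral hn) h
  obtain ⟨g, hg⟩ := h1
  rw [hg, map_mul, hρ.minpoly_eq_pow_coprime ht, minpoly.aeval, zero_mul]

theorem conj_mult {E : Type} [Field E] [CharZero E] {n : ℕ} (hn : 0 < n) {ρ : E}
    (hρ : IsPrimitiveRoot ρ n) (i j Q t : ℕ) (ht : t.Coprime n) (G : ℤ[X][X])
    (hG : G.map (ev (ρ ^ i)) ≠ 0) (hG' : G.map (ev ((ρ ^ t) ^ i)) ≠ 0) :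
    (G.map (ev (ρ ^ i))).rootMultiplicity ((Q : E) * ρ ^ j)
      ≤ (G.map (ev ((ρ ^ t) ^ i))).rootMultiplicity ((Q : E) * (ρ ^ t) ^ j) := by
  by_contra hlt
  rw [not_le] at hlt
  have hnz : ∀ m : ℕ, m ≤ (G.map (ev ((ρ ^ t) ^ i))).rootMultiplicity ((Q : E) * (ρ ^ t) ^ j) →
      m ≠ 0 → (m : E) ∈ nonZeroDivisors E := by
    intro m _ hm
    exact mem_nonZeroDivisors_of_ne_zero (Nat.cast_ne_zero.2 hm)
  have h1 := (lt_rootMultiplicity_iff_isRoot_iterate_derivative_of_mem_nonZeroDivisors' hG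
    hnz).1 hlt
  have h2 := (lt_rootMultiplicity_iff_isRoot_iterate_derivative_of_mem_nonZeroDivisors' hG'
    hnz).2 (by
      intro m hm
      have h3 := h1 m hm
      rw [IsRoot.def, iterate_derivative_map] at h3 ⊢
      exact conj_root hn hρ i j Q t ht _ h3)
  exact lt_irrefl _ h2

lemma exists_primitive (E : Type) [Field E] [CharZero E] [IsAlgClosed E] (n : ℕ) (hn : 0 < n) :
    ∃ ρ : E, IsPrimitiveRoot ρ n := by
  have : NeZero (n : E) := ⟨Nat.cast_ne_zero.2 hn.ne'⟩
  obtain ⟨ρ, hρ⟩ := IsAlgClosed.exists_root (cyclotomic n E)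
    (by rw [degree_cyclotomic]; exact_mod_cast (Nat.totient_pos.2 hn).ne')
  exact ⟨ρ, isRoot_cyclotomic_iff.1 hρ⟩

lemma mult_eq_count {E : Type} [Field E] [DecidableEq E] {G : ℤ[X][X]} {μ : E} {A : Multiset E}
    (hG : G.map (ev μ) = (A.map fun x => X - C x).prod) (y : E) :
    (G.map (ev μ)).rootMultiplicity y = A.count y := by
  rw [hG, ← count_roots, roots_multiset_prod_X_sub_C]

/-- With `Q ζ η` also `Q ζ ^ u η` is an eigenvalue, of at least the same multiplicity. -/
theorem count_conj {E : Type} [Field E] [CharZero E] [IsAlgClosed E] [DecidableEq E] {p s : ℕ}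
    (hp : p.Prime) {μ : E} (hμ : IsPrimitiveRoot μ (p ^ s)) (a : ℕ → ℕ → ℕ) (A : Multiset E)
    (h : ∀ n, 1 ≤ n → orbSum (p ^ s) μ a n = (A.map fun x => x ^ n).sum) (Q : ℕ) {M : ℕ}
    (hM : 0 < M) (hMp : ¬ p ∣ M) {ζ : E} (hζ : IsPrimitiveRoot ζ M) (b : ℕ) {η : E}
    (hη : η ^ p ^ b = 1) {u : ℕ} (hu : u.Coprime M) :
    A.count ((Q : E) * (ζ * η)) ≤ A.count ((Q : E) * (ζ ^ u * η)) := by
  obtain ⟨G, hG⟩ := exists_lift (p ^ s) μ a A h
  set c := max s b with hc
  have hpc : 0 < p ^ c := pow_pos hp.pos c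
  have hn : 0 < M * p ^ c := Nat.mul_pos hM hpc
  obtain ⟨ρ, hρ⟩ := exists_primitive E (M * p ^ c) hn
  have hμ1 : μ ^ (M * p ^ c) = 1 := by
    obtain ⟨e, he⟩ := pow_dvd_pow p (le_max_left s b)
    rw [← hc] at he
    rw [he, mul_comm M, mul_assoc, pow_mul, hμ.pow_eq_one, one_pow]
  have hη1 : η ^ p ^ c = 1 := by
    obtain ⟨e, he⟩ := pow_dvd_pow p (le_max_right s b)
    rw [← hc] at he
    rw [he, pow_mul, hη, one_pow]
  have hy1 : (ζ * η) ^ (M * p ^ c) = 1 := by
    rw [mul_pow, pow_mul, hζ.pow_eq_one, one_pow, mul_comm M, pow_mul, hη1, one_pow, one_mul]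
  have : NeZero (M * p ^ c) := ⟨hn.ne'⟩
  obtain ⟨i, -, hi⟩ := hρ.eq_pow_of_pow_eq_one hμ1
  obtain ⟨j, -, hj⟩ := hρ.eq_pow_of_pow_eq_one hy1
  have hcop : Nat.Coprime M (p ^ c) :=
    Nat.Coprime.pow_right c ((Nat.Prime.coprime_iff_not_dvd hp).2 hMp).symm
  obtain ⟨t, ht1, ht2⟩ := Nat.chineseRemainder hcop u 1
  have htc : t.Coprime (M * p ^ c) := by
    apply Nat.Coprime.mul_right
    · exact (Nat.ModEq.gcd_eq ht1).trans hu
    · exact (Nat.ModEq.gcd_eq ht2).trans (Nat.gcd_one_left _)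
  have hμt : μ ^ t = μ := by
    have h1 : t ≡ 1 [MOD p ^ s] := ht2.of_dvd (pow_dvd_pow p (le_max_left s b))
    have h2 := pow_eq_pow_of_modEq h1 hμ.pow_eq_one
    rwa [pow_one] at h2
  have hηt : η ^ t = η := by
    have h2 := pow_eq_pow_of_modEq ht2 hη1
    rwa [pow_one] at h2
  have hζt : ζ ^ t = ζ ^ u := pow_eq_pow_of_modEq ht1 hζ.pow_eq_one
  have hμi : (ρ ^ t) ^ i = μ := by rw [← pow_mul, mul_comm, pow_mul, hi, hμt]
  have hyj : (ρ ^ t) ^ j = ζ ^ u * η := by
    rw [← pow_mul, mul_comm, pow_mul, hj, mul_pow, hζt, hηt]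
  have hne : (A.map fun x => X - C x).prod ≠ (0 : E[X]) :=
    (monic_multiset_prod_of_monic _ _ fun x _ => monic_X_sub_C x).ne_zero
  have h3 := conj_mult hn hρ i j Q t htc G (by rw [hi, hG]; exact hne)
    (by rw [hμi, hG]; exact hne)
  rw [hi, hμi, hj, hyj, mult_eq_count hG, mult_eq_count hG] at h3
  exact h3

end Pool.Agent.Y134.Cyc
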