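import Mathlib

/-!
# Cyclic coverings of the affine plane: definitions
-/

set_option autoImplicit false

namespace Pool.Agent.Y134.Cyc

/-- The sum over the points `(x, y)` of the affine plane over `L` of `χ (N (F (x, y)))`, `N` the norm
from `L` to `κ`. -/
noncomputable def charSum {κ E : Type} [Field κ] [Field E] (χ : MulChar κ E)
    (F : MvPolynomial (Fin 2) κ) (L : Type) [Field L] [Fintype L] [Algebra κ L] : E :=
  ∑ v : Fin 2 → L, χ (Algebra.norm κ (MvPolynomial.aeval v F))

/-- The number of points over `L` of the affine curve `F(x, y) = 0`. -/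
noncomputable def curvePoints {κ : Type} [Field κ] (F : MvPolynomial (Fin 2) κ) (L : Type)
    [Field L] [Algebra κ L] : ℕ :=
  Set.ncard {v : Fin 2 → L | MvPolynomial.aeval v F = 0}

/-- The number of points over `L` of the affine surface `w ^ n = F(x, y)`. -/
noncomputable def surfacePoints {κ : Type} [Field κ] (n : ℕ) (F : MvPolynomial (Fin 2) κ)
    (L : Type) [Field L] [Algebra κ L] : ℕ :=
  Set.ncard {v : (Fin 2 → L) × L | v.2 ^ n = MvPolynomial.aeval v.1 F}

end Pool.Agent.Y134.Cyc
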