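import Pool.Agent.Y134.Cyc.Chars
import Pool.Agent.Y134.Cyc.Defs

/-!
# Cyclic coverings of the affine plane
-/

set_option autoImplicit false

namespace Pool.Agent.Y134.Cyc

open Finset Polynomial Pool.Agent.W528.HA Pool.Agent.W528.HS

lemma eval_map_eq {κ L : Type} [Field κ] [Field L] [Algebra κ L] {m : ℕ}
    (F : MvPolynomial (Fin m) κ) (v : Fin m → L) :
    MvPolynomial.eval v (MvPolynomial.map (algebraMap κ L) F) = MvPolynomial.aeval v F := by
  rw [MvPolynomial.eval_map, MvPolynomial.aeval_def]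

/-- The character sum as a sum over projective space. -/
lemma charSum_eq {κ : Type} [Field κ] {E : Type} [Field E] {n : ℕ} (hn : 0 < n)
    {χ : MulChar κ E} {z : κ} {μ : E} (hz : IsPrimitiveRoot z n) {j : ℕ}
    (F : MvPolynomial (Fin 2) κ) (L : Type) [Field L] [Fintype L] [Algebra κ L]
    (hL : n ∣ Fintype.card L - 1)
    (h : ∀ u : L, (χ ^ j) (Algebra.norm κ u)
          = kv n (algebraMap κ L z) μ ((u ^ j) ^ ((Fintype.card L - 1) / n))) :
    charSum (χ ^ j) F L
      = projSum L E n ((lastMul (F ^ j)).map (algebraMap κ L)) (algebraMap κ L z) μ := by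
  have hzL : algebraMap κ L z ≠ 0 := (_root_.map_ne_zero _).2 (hz.ne_zero hn.ne')
  rw [map_lastMul, projSum_lastMul hn hL hzL]
  unfold charSum
  refine sum_congr rfl fun v _ => ?_
  rw [h, eval_map_eq, map_pow]

lemma open_eq {κ : Type} [Field κ] {j : ℕ} (hj : 1 ≤ j) (F : MvPolynomial (Fin 2) κ) (L : Type)
    [Field L] [Fintype L] [Algebra κ L] :
    projOpen L ((lastMul (F ^ j)).map (algebraMap κ L)) + curvePoints F L
      = Fintype.card L ^ 2 := by
  rw [map_lastMul, projOpen_lastMul, ← open_add_zero ((F ^ j).map (algebraMap κ L))]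
  congr 1
  unfold curvePoints
  congr 1
  ext v
  rw [Set.mem_ofPred_eq, Set.mem_ofPred_eq, eval_map_eq, map_pow]
  exact (pow_eq_zero_iff (by omega)).symm

lemma card_dvd {κ : Type} [Field κ] [Fintype κ] {n : ℕ} (hdvd : n ∣ Fintype.card κ - 1)
    (L : Type) [Field L] [Fintype L] [Algebra κ L] : n ∣ Fintype.card L - 1 := by
  refine hdvd.trans ?_
  rw [Module.card_eq_pow_finrank (K := κ) (V := L)]
  simpa using Nat.sub_dvd_pow_sub_pow (Fintype.card κ) 1 (Module.finrank κ L)

/-- The part of a character. -/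
theorem char_part {p s : ℕ} (hp : p.Prime) (hs : 1 ≤ s) {κ : Type} [Field κ] [Fintype κ]
    (hdvd : p ^ s ∣ Fintype.card κ - 1) (F : MvPolynomial (Fin 2) κ) {E : Type} [Field E]
    [CharZero E] [IsAlgClosed E] (χ : MulChar κ E) (hχ : orderOf χ = p ^ s) {j : ℕ} (hj : 1 ≤ j)
    (P₁ P₂ : ℤ[X]) (hP₁ : P₁.coeff 0 = 1) (hP₂ : P₂.coeff 0 = 1) (B₁ B₂ : Multiset E)
    (hB₁ : P₁.map (Int.castRingHom E) = (B₁.map fun x => 1 - C x * X).prod)
    (hB₂ : P₂.map (Int.castRingHom E) = (B₂.map fun x => 1 - C x * X).prod)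
    (hC : ∀ (L : Type) [Field L] [Fintype L] [Algebra κ L],
      (curvePoints F L : E) = Fintype.card L - (B₁.map fun x => x ^ Module.finrank κ L).sum
          + (B₂.map fun x => x ^ Module.finrank κ L).sum)
    (H : (ZMod p)[X])
    (hH : H * P₂.map (Int.castRingHom (ZMod p)) = P₁.map (Int.castRingHom (ZMod p)))
    {W : Type} [AddCommGroup W] [Module E W] [FiniteDimensional E W] (Φ : Module.End E W)
    (hΦ : ∀ (L : Type) [Field L] [Fintype L] [Algebra κ L],
      LinearMap.trace E W (Φ ^ Module.finrank κ L) = charSum (χ ^ j) F L)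
    {M : ℕ} (hM : 0 < M) (hMp : ¬ p ∣ M) {ζ : E} (hζ : IsPrimitiveRoot ζ M) (b : ℕ) :
    cyclotomic M (ZMod p) ^ (∑ η ∈ nthRootsFinset (p ^ b) (1 : E),
      Module.finrank E (Φ.maxGenEigenspace ((Fintype.card κ : E) * (ζ * η)))) ∣ H := by
  classical
  have hfact : Fact p.Prime := ⟨hp⟩
  have hn : 0 < p ^ s := pow_pos hp.pos s
  obtain ⟨z, μ, hz, hμ, hkv⟩ := char_kv hn hdvd χ hχ
  set q := Fintype.card κ with hq
  have hq1 : ((q : ℕ) : ZMod p) = 1 := card_eq_one hp hs hz (ZMod p)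
  have hcard : ∀ (L : Type) [Field L] [Fintype L] [Algebra κ L],
      (Fintype.card L : E) = (q : E) ^ Module.finrank κ L := by
    intro L _ _ _
    rw [Module.card_eq_pow_finrank (K := κ) (V := L)]
    push_cast
    rfl
  have key := mult_cyc hp hs κ hz (d := 1) (lastMul (F ^ j)) hμ
    ((1 - C ((q : ℤ) ^ 2) * X) * P₁) ((1 - C ((q : ℤ)) * X) * P₂)
    (by simp [hP₁]) (by simp [hP₂]) (((q : E) ^ 2) ::ₘ B₁) ((q : E) ::ₘ B₂)
    (by
      rw [Polynomial.map_mul, hB₁, Multiset.map_cons, Multiset.prod_cons]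
      congr 1
      simp)
    (by
      rw [Polynomial.map_mul, hB₂, Multiset.map_cons, Multiset.prod_cons]
      congr 1
      simp)
    (by
      intro L _ _ _
      have h1 : ((projOpen L ((lastMul (F ^ j)).map (algebraMap κ L)) : ℕ) : E)
          + curvePoints F L = (Fintype.card L : E) ^ 2 := by
        exact_mod_cast open_eq hj F L
      rw [hC L, hcard L] at h1
      have e3 : ((q : E) ^ 2) ^ Module.finrank κ L = ((q : E) ^ Module.finrank κ L) ^ 2 := by
        rw [← pow_mul, ← pow_mul, mul_comm]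
      rw [Multiset.map_cons, Multiset.sum_cons, Multiset.map_cons, Multiset.sum_cons, e3]
      linear_combination h1)
    Φ (by
      intro L _ _ _
      rw [hΦ L]
      exact charSum_eq hn hz F L (card_dvd hdvd L) (fun u => hkv L u j hj))
    H (by
      have hqX : ((q : ℕ) : (ZMod p)[X]) = 1 := by rw [← C_eq_natCast, hq1, C_1]
      have e1 : ((1 - C ((q : ℤ) ^ 2) * X : ℤ[X])).map (Int.castRingHom (ZMod p)) = 1 - X := by
        simp [hqX]
      have e2 : ((1 - C ((q : ℤ)) * X : ℤ[X])).map (Int.castRingHom (ZMod p)) = 1 - X := by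
        simp [hqX]
      rw [Polynomial.map_mul, Polynomial.map_mul, e1, e2, ← hH]
      ring)
    hM hMp hζ b
  have e4 : ∑ η ∈ nthRootsFinset (p ^ b) (1 : E),
      Module.finrank E (Φ.maxGenEigenspace ((Fintype.card κ : E) ^ 1 * (ζ * η)))
      = ∑ η ∈ nthRootsFinset (p ^ b) (1 : E),
        Module.finrank E (Φ.maxGenEigenspace ((Fintype.card κ : E) * (ζ * η))) :=
    sum_congr rfl fun η _ => by rw [pow_one]
  rw [e4] at key
  exact key

end Pool.Agent.Y134.Cyc
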