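import Pool.Agent.Y134.Cyc.Red
import Pool.Agent.W715.HS.OC
import Pool.Agent.W273.HS.PJ
import Pool.Agent.W326.HS.EI
import Pool.Agent.W63.HS.TR
import Pool.Agent.W804.HS.RD

/-!
# The cyclotomic part of the zeta function of the complement of the branch divisor
-/

set_option autoImplicit false

namespace Pool.Agent.Y134.Cyc

open Finset Polynomial Pool.Agent.W528.HA Pool.Agent.W528.HS

lemma exists_ext (κ : Type) [Field κ] [Fintype κ] (m : ℕ) (hm : 1 ≤ m) :
    ∃ (L : Type) (_ : Field L) (_ : Fintype L) (_ : Algebra κ L), Module.finrank κ L = m := by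
  obtain ⟨c, hc⟩ := CharP.exists κ
  have hcp : Fact c.Prime := ⟨CharP.char_is_prime κ c⟩
  have : NeZero m := ⟨by omega⟩
  let _ : Fintype (FiniteField.Extension κ c m) := Fintype.ofFinite _
  exact ⟨FiniteField.Extension κ c m, inferInstance, inferInstance, inferInstance,
    FiniteField.finrank_extension κ c m⟩

/-- If `H` is the inverse of the zeta function of the complement `U` of `F = 0` modulo `p`, then
the power of the cyclotomic polynomial of index `M` whose exponent is the total multiplicity of the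
eigenvalues `q ^ d ζ η`, `η` of `p`-power order, divides `H`. -/
theorem mult_cyc {p s : ℕ} (hp : p.Prime) (hs : 1 ≤ s) (κ : Type) [Field κ] [Fintype κ] {z : κ}
    (hz : IsPrimitiveRoot z (p ^ s)) {d : ℕ} (F : MvPolynomial (Fin (2 * d + 1)) κ) {E : Type}
    [Field E] [CharZero E] [IsAlgClosed E] {μ : E} (hμ : IsPrimitiveRoot μ (p ^ s))
    (P₁ P₂ : ℤ[X]) (hP₁ : P₁.coeff 0 = 1) (hP₂ : P₂.coeff 0 = 1) (B₁ B₂ : Multiset E)
    (hB₁ : P₁.map (Int.castRingHom E) = (B₁.map fun x => 1 - C x * X).prod)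
    (hB₂ : P₂.map (Int.castRingHom E) = (B₂.map fun x => 1 - C x * X).prod)
    (hU : ∀ (L : Type) [Field L] [Fintype L] [Algebra κ L],
      (projOpen L (F.map (algebraMap κ L)) : E)
        = (B₁.map fun x => x ^ Module.finrank κ L).sum
          - (B₂.map fun x => x ^ Module.finrank κ L).sum)
    {W : Type} [AddCommGroup W] [Module E W] [FiniteDimensional E W] (Φ : Module.End E W)
    (hΦ : ∀ (L : Type) [Field L] [Fintype L] [Algebra κ L],
      LinearMap.trace E W (Φ ^ Module.finrank κ L)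
        = projSum L E (p ^ s) (F.map (algebraMap κ L)) (algebraMap κ L z) μ)
    (H : (ZMod p)[X])
    (hH : H * P₂.map (Int.castRingHom (ZMod p)) = P₁.map (Int.castRingHom (ZMod p)))
    {M : ℕ} (hM : 0 < M) (hMp : ¬ p ∣ M) {ζ : E} (hζ : IsPrimitiveRoot ζ M) (b : ℕ) :
    cyclotomic M (ZMod p) ^ (∑ η ∈ nthRootsFinset (p ^ b) (1 : E),
      Module.finrank E (Φ.maxGenEigenspace ((Fintype.card κ : E) ^ d * (ζ * η)))) ∣ H := by
  classical
  have hfact : Fact p.Prime := ⟨hp⟩
  have hev : Even (2 * d) := even_two_mul d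
  obtain ⟨k, _, _, θ, A', B₁', B₂', hA', hB₁', hB₂', h1, -⟩ := congr Pool.Agent.W715.HS.OC.main
    Pool.Agent.W326.HS.EI.main Pool.Agent.W111.HS.EC.main Pool.Agent.W63.HS.TR.main
    Pool.Agent.W804.HS.RD.main hp κ hz F hμ B₁ B₂ (integral_of_poly hP₁ hB₁)
    (integral_of_poly hP₂ hB₂) hU Φ (by
      intro L _ _ _
      rw [hev.neg_one_pow, one_mul, hΦ L])
  have h1 := h1 hev
  rw [red_prod hB₁ hB₁' θ, red_prod hB₂ hB₂' θ] at h1
  let ι : ZMod p →+* k := ZMod.castHom (dvd_refl p) k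
  have hι : ∀ P : ℤ[X], (P.map (Int.castRingHom (ZMod p))).map ι = P.map (Int.castRingHom k) := by
    intro P
    rw [Polynomial.map_map]
    congr 1
    exact RingHom.ext_int _ _
  have hne : ∀ P : ℤ[X], P.coeff 0 = 1 → P.map (Int.castRingHom k) ≠ 0 := by
    intro P hP h
    have h3 := congrArg (fun Q => Polynomial.coeff Q 0) h
    simp only [coeff_map, hP, coeff_zero, map_one] at h3
    exact one_ne_zero h3
  have hprod : (A'.map fun x => 1 - C (θ x) * X).prod = H.map ι := by
    have h3 := congrArg (Polynomial.map ι) hH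
    rw [Polynomial.map_mul, hι, hι] at h3
    exact mul_right_cancel₀ (hne P₂ hP₂) (h1.trans h3.symm)
  -- the sums over the closed points
  obtain ⟨a, ha⟩ := Pool.Agent.W715.HS.OC.main κ (p ^ s) z (pow_pos hp.pos s) hz (2 * d + 1) F
  have hS : ∀ m, 1 ≤ m → orbSum (p ^ s) μ a m = (Φ.charpoly.roots.map fun x => x ^ m).sum := by
    intro m hm
    obtain ⟨L, _, _, _, hL⟩ := exists_ext κ m hm
    have h2 := (ha L).1 E μ hμ.pow_eq_one
    rw [hL] at h2
    have h3 := hΦ L
    rw [hL] at h3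
    rw [← h2, ← h3, Pool.Agent.W63.HS.TR.main E W Φ m]
  have hqk : (((Fintype.card κ) ^ d : ℕ) : k) = 1 := by
    rw [Nat.cast_pow, card_eq_one hp hs hz k, one_pow]
  have hcyc := cyc_dvd hp θ Φ.charpoly.roots A' hA' ((Fintype.card κ) ^ d) hqk hM hMp hζ b
    (fun η hη u hu => count_conj hp hμ a _ hS _ hM hMp hζ b hη hu)
  have hsum : ∑ η ∈ nthRootsFinset (p ^ b) (1 : E),
      Module.finrank E (Φ.maxGenEigenspace ((Fintype.card κ : E) ^ d * (ζ * η)))
      = ∑ η ∈ nthRootsFinset (p ^ b) (1 : E),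
        Φ.charpoly.roots.count ((((Fintype.card κ) ^ d : ℕ) : E) * (ζ * η)) := by
    refine sum_congr rfl fun η _ => ?_
    rw [LinearMap.finrank_maxGenEigenspace_eq, count_roots, Nat.cast_pow]
  rw [hsum, ← map_dvd_map' ι, Polynomial.map_pow, map_cyclotomic, ← hprod]
  exact hcyc

end Pool.Agent.Y134.Cyc
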