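import Pool.Agent.Y134.Cyc.Fin

/-!
# Cyclic coverings of the affine plane: the points, and Tate classes
-/

set_option autoImplicit false

namespace Pool.Agent.Y134.Cyc

open Finset Polynomial Pool.Agent.W528.HA Pool.Agent.W528.HS

lemma ncard_prod {α β : Type} [Fintype α] [Fintype β] (S : Set (α × β)) :
    Set.ncard S = ∑ a : α, Set.ncard {b : β | (a, b) ∈ S} := by
  classical
  rw [Set.ncard_eq_toFinset_card' S, Finset.card_eq_sum_card_fiberwise (f := Prod.fst)
    (s := S.toFinset) (t := univ) (fun x _ => by simp)]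
  refine sum_congr rfl fun a _ => ?_
  rw [Set.ncard_eq_toFinset_card']
  refine Finset.card_bij (fun x _ => x.2) ?_ ?_ ?_
  · rintro ⟨x, y⟩ h
    simp only [Finset.mem_filter, Set.mem_toFinset] at h ⊢
    obtain ⟨h1, rfl⟩ := h
    exact h1
  · rintro ⟨x, y⟩ h ⟨x', y'⟩ h' hxy
    simp only [Finset.mem_filter] at h h'
    simp only at hxy
    rw [Prod.mk.injEq]
    exact ⟨h.2.trans h'.2.symm, hxy⟩
  · intro y hy
    exact ⟨(a, y), by simpa using hy, rfl⟩

/-- The number of points of the surface `w ^ n = F(x, y)`. -/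
theorem surface_eq {κ : Type} [Field κ] [Fintype κ] {n : ℕ} (hn : 0 < n)
    (hdvd : n ∣ Fintype.card κ - 1) (F : MvPolynomial (Fin 2) κ) {E : Type} [Field E]
    [CharZero E] (χ : MulChar κ E) (hχ : orderOf χ = n) (L : Type) [Field L] [Fintype L]
    [Algebra κ L] :
    (surfacePoints n F L : E) = (Fintype.card L : E) ^ 2 + ∑ j ∈ Ico 1 n, charSum (χ ^ j) F L := by
  classical
  obtain ⟨z, μ, hz, hμ, hkv⟩ := char_kv hn hdvd χ hχ
  have hzL : IsPrimitiveRoot (algebraMap κ L z) (n * 1) := by
    rw [mul_one]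
    exact hz.map_of_injective (algebraMap κ L).injective
  have hμ' : IsPrimitiveRoot μ (n * 1) := by rwa [mul_one]
  have h1 : ∀ u : L, ((Set.ncard {y : L | y ^ n = u} : ℕ) : E)
      = 1 + ∑ j ∈ Ico 1 n, (χ ^ j) (Algebra.norm κ u) := by
    intro u
    have h2 := Pool.Agent.W924.HC.PR.main L (n * 1) n 1 (algebraMap κ L z) rfl hzL hn one_pos E μ
      hμ' u
    rw [h2]
    congr 1
    refine sum_congr rfl fun j hj => ?_
    rw [hkv L u j (mem_Ico.1 hj).1, one_mul, mul_one]
  unfold surfacePoints charSum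
  rw [ncard_prod]
  push_cast
  have h3 : ∀ v : Fin 2 → L, {b : L | (v, b) ∈
      ({v : (Fin 2 → L) × L | v.2 ^ n = MvPolynomial.aeval v.1 F} : Set _)}
      = {y : L | y ^ n = MvPolynomial.aeval v F} := fun v => rfl
  simp only [h3, h1]
  rw [sum_add_distrib, sum_comm]
  simp

/-- All the parts together. -/
theorem tate_main {p s : ℕ} (hp : p.Prime) (hs : 1 ≤ s) {κ : Type} [Field κ] [Fintype κ]
    (hdvd : p ^ s ∣ Fintype.card κ - 1) (F : MvPolynomial (Fin 2) κ) {E : Type} [Field E]
    [CharZero E] [IsAlgClosed E] (χ : MulChar κ E) (hχ : orderOf χ = p ^ s)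
    (P₁ P₂ : ℤ[X]) (hP₁ : P₁.coeff 0 = 1) (hP₂ : P₂.coeff 0 = 1) (B₁ B₂ : Multiset E)
    (hB₁ : P₁.map (Int.castRingHom E) = (B₁.map fun x => 1 - C x * X).prod)
    (hB₂ : P₂.map (Int.castRingHom E) = (B₂.map fun x => 1 - C x * X).prod)
    (hC : ∀ (L : Type) [Field L] [Fintype L] [Algebra κ L],
      (curvePoints F L : E) = Fintype.card L - (B₁.map fun x => x ^ Module.finrank κ L).sum
          + (B₂.map fun x => x ^ Module.finrank κ L).sum)
    (H : (ZMod p)[X])
    (hH : H * P₂.map (Int.castRingHom (ZMod p)) = P₁.map (Int.castRingHom (ZMod p)))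
    {V : Type} [AddCommGroup V] [Module E V] [FiniteDimensional E V] (Ψ : Module.End E V)
    (W : Fin (p ^ s - 1) → Submodule E V) (hW : DirectSum.IsInternal W)
    (hstab : ∀ j, ∀ v ∈ W j, Ψ v ∈ W j)
    (hΨ : ∀ (j : Fin (p ^ s - 1)) (L : Type) [Field L] [Fintype L] [Algebra κ L],
      LinearMap.trace E (W j) ((Ψ.restrict (hstab j)) ^ Module.finrank κ L)
        = charSum (χ ^ ((j : ℕ) + 1)) F L) :
    (∀ (L : Type) [Field L] [Fintype L] [Algebra κ L],
      LinearMap.trace E V (Ψ ^ Module.finrank κ L)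
        = surfacePoints (p ^ s) F L - (Fintype.card L : E) ^ 2) ∧
    (∀ (j : Fin (p ^ s - 1)) (M b : ℕ) (ζ : E), 0 < M → ¬ p ∣ M → IsPrimitiveRoot ζ M →
      cyclotomic M (ZMod p) ^ (∑ η ∈ nthRootsFinset (p ^ b) (1 : E),
        Module.finrank E (Module.End.maxGenEigenspace (Ψ.restrict (hstab j))
          ((Fintype.card κ : E) * (ζ * η)))) ∣ H) ∧
    (∀ (m : ℕ), 0 < m → (∀ M : ℕ, M ∣ m → ¬ p ∣ M → ¬ cyclotomic M (ZMod p) ∣ H) → ∀ v : V,
      (Ψ ^ m) v = (Fintype.card κ : E) ^ m • v → v = 0) := by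
  classical
  have hn : 0 < p ^ s := pow_pos hp.pos s
  have hpart : ∀ (j : Fin (p ^ s - 1)) (M b : ℕ) (ζ : E), 0 < M → ¬ p ∣ M →
      IsPrimitiveRoot ζ M →
      cyclotomic M (ZMod p) ^ (∑ η ∈ nthRootsFinset (p ^ b) (1 : E),
        Module.finrank E (Module.End.maxGenEigenspace (Ψ.restrict (hstab j))
          ((Fintype.card κ : E) * (ζ * η)))) ∣ H := fun j M b ζ hM hMp hζ =>
    char_part hp hs hdvd F χ hχ (Nat.succ_le_succ (Nat.zero_le _)) P₁ P₂ hP₁ hP₂ B₁ B₂ hB₁ hB₂ hC
      H hH (Ψ.restrict (hstab j)) (hΨ j) hM hMp hζ b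
  refine ⟨?_, hpart, ?_⟩
  · intro L _ _ _
    have hmaps : ∀ j, Set.MapsTo (Ψ ^ Module.finrank κ L) (W j) (W j) := by
      intro j v hv
      induction Module.finrank κ L with
      | zero => simpa using hv
      | succ m ih =>
        rw [pow_succ', Module.End.mul_apply]
        exact hstab j _ ih
    rw [LinearMap.trace_eq_sum_trace_restrict hW hmaps, surface_eq hn hdvd F χ hχ L]
    have h1 : ∀ j, LinearMap.trace E (W j) ((Ψ ^ Module.finrank κ L).restrict (hmaps j))
        = charSum (χ ^ ((j : ℕ) + 1)) F L := by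
      intro j
      rw [← hΨ j L, Module.End.pow_restrict]
    rw [Finset.sum_congr rfl fun j _ => h1 j,
      Fin.sum_univ_eq_sum_range (fun j => charSum (χ ^ (j + 1)) F L) (p ^ s - 1),
      Finset.sum_Ico_eq_sum_range]
    have h2 : ∀ j, charSum (χ ^ (1 + j)) F L = charSum (χ ^ (j + 1)) F L := fun j => by
      rw [add_comm]
    simp only [h2]
    ring
  · intro m hm hcyc v hv
    by_contra hne
    set q : E := (Fintype.card κ : E) with hq
    have hq0 : q ≠ 0 := by
      rw [hq]
      exact_mod_cast Fintype.card_ne_zero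
    -- an eigenvalue `lam` with `lam ^ m = q ^ m`
    obtain ⟨lam, x, hx0, hx, hlam⟩ : ∃ (lam : E) (x : V), x ≠ 0 ∧ Ψ x = lam • x ∧
        lam ^ m = q ^ m := by
      let K : Submodule E V := LinearMap.ker (Ψ ^ m - (q ^ m) • (1 : Module.End E V))
      have hK : ∀ y, y ∈ K ↔ (Ψ ^ m) y = q ^ m • y := by
        intro y
        rw [LinearMap.mem_ker, LinearMap.sub_apply, sub_eq_zero, LinearMap.smul_apply,
          Module.End.one_apply]
      have hKs : ∀ y ∈ K, Ψ y ∈ K := by
        intro y hy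
        rw [hK] at hy ⊢
        rw [← Module.End.mul_apply, ← pow_succ, pow_succ', Module.End.mul_apply, hy, map_smul]
      have hKn : Nontrivial K := ⟨⟨⟨v, (hK v).2 hv⟩, 0, fun h => hne (congrArg Subtype.val h)⟩⟩
      obtain ⟨lam, hl⟩ := Module.End.exists_eigenvalue (Ψ.restrict hKs)
      obtain ⟨x, hx⟩ := hl.exists_hasEigenvector
      have hx1 : Ψ (x : V) = lam • (x : V) := by
        have := congrArg Subtype.val hx.apply_eq_smul
        simpa using this
      have hx2 : (x : V) ≠ 0 := fun h => hx.2 (Subtype.ext h)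
      refine ⟨lam, x, hx2, hx1, ?_⟩
      have hpow : ∀ i : ℕ, (Ψ ^ i) (x : V) = lam ^ i • (x : V) := by
        intro i
        induction i with
        | zero => simp
        | succ i ih => rw [pow_succ', Module.End.mul_apply, ih, map_smul, hx1, smul_smul, pow_succ]
      have h1 := (hK x).1 x.2
      rw [hpow] at h1
      exact smul_left_injective E hx2 h1
    -- it is an eigenvalue on one of the parts
    obtain ⟨j, hj⟩ : ∃ j, ¬ Function.Injective
        (Ψ.restrict (hstab j) - lam • (1 : Module.End E (W j))) := by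
      by_contra hcon
      push Not at hcon
      have hsurj : LinearMap.range (Ψ - lam • (1 : Module.End E V)) = ⊤ := by
        rw [eq_top_iff, ← hW.submodule_iSup_eq_top]
        refine iSup_le fun j => ?_
        intro y hy
        have h1 : Function.Surjective (Ψ.restrict (hstab j) - lam • (1 : Module.End E (W j))) :=
          LinearMap.injective_iff_surjective.1 (hcon j)
        obtain ⟨y', hy'⟩ := h1 ⟨y, hy⟩
        refine ⟨y', ?_⟩
        have h2 := congrArg Subtype.val hy'
        simpa using h2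
      have hinj : Function.Injective (Ψ - lam • (1 : Module.End E V)) :=
        LinearMap.injective_iff_surjective.2 (LinearMap.range_eq_top.1 hsurj)
      apply hx0
      apply hinj
      rw [map_zero, LinearMap.sub_apply, LinearMap.smul_apply, Module.End.one_apply, hx, sub_self]
    have hev : Module.finrank E (Module.End.maxGenEigenspace (Ψ.restrict (hstab j)) lam) ≠ 0 := by
      intro h0
      apply hj
      rw [← LinearMap.ker_eq_bot]
      have h1 : Module.End.maxGenEigenspace (Ψ.restrict (hstab j)) lam = ⊥ :=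
        Submodule.finrank_eq_zero.1 h0
      rw [eq_bot_iff, ← h1]
      intro y hy
      have h2 : y ∈ Module.End.eigenspace (Ψ.restrict (hstab j)) lam := by
        rw [Module.End.mem_eigenspace_iff]
        rw [LinearMap.mem_ker, LinearMap.sub_apply, LinearMap.smul_apply, Module.End.one_apply,
          sub_eq_zero] at hy
        exact hy
      exact (Module.End.genEigenspace (Ψ.restrict (hstab j)) lam).mono le_top h2
    -- the root of unity
    obtain ⟨M, c, ζ, η, hMm, hMp, hζ, hη, hy⟩ := decomp hp hm (y := lam / q) (by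
      rw [div_pow, hlam, div_self (pow_ne_zero m hq0)])
    have hM : 0 < M := Nat.pos_of_dvd_of_pos hMm hm
    have hlam2 : lam = q * (ζ * η) := by rw [← hy]; field_simp
    apply hcyc M hMm hMp
    refine dvd_trans (dvd_pow_self _ ?_) (hpart j M c ζ hM hMp hζ)
    intro h0
    rw [Finset.sum_eq_zero_iff] at h0
    have h1 := h0 η ((mem_nthRootsFinset (pow_pos hp.pos c) 1).2 hη)
    rw [← hlam2] at h1
    exact hev h1

end Pool.Agent.Y134.Cyc
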